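import Mathlib
import Pool.Agent.V11204.SpanField

/-!
# A span `10` sequence from orthogonal feedback with linear span at most `987`

The conjectured lower bound `2^n - 2 - 3n ≤ LS` for span `n` sequences generated by NLFSRs with
orthogonal feedback fails for `n = 10`, `m = 9`: there is such a sequence with
`LS ≤ 987 < 992 = 2^10 - 2 - 3·10`.
-/

namespace Pool.Agent.Results.MP_593d43_lc.SmallLinearSpan
open Pool.Agent.V11204 SpanData SpanField

/-- The element of `K` with coordinates `v` in the basis `1, α, …, α^(m-1)`. -/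
noncomputable def ofCoords {K : Type} [Field K] [Algebra (ZMod 2) K] (α : K) {m : ℕ}
    (v : Fin m → ZMod 2) : K :=
  ∑ i, v i • α ^ (i : ℕ)

/-- `g : K → F_2` is orthogonal: `∑_x (-1)^(g(λx)+g(x)) = 0` for every `λ ≠ 1`. -/
def IsOrthogonal {K : Type} [Field K] [Fintype K] (g : K → ZMod 2) : Prop :=
  ∀ l : K, l ≠ 1 → ∑ x : K, (-1 : ℤ) ^ (g (l * x) + g x).val = 0

/-- `g` is affine in the coordinates. -/
def IsAffine {K : Type} [Field K] [Algebra (ZMod 2) K] (α : K) (m : ℕ) (g : K → ZMod 2) : Prop :=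
  ∃ (b : ZMod 2) (a : Fin m → ZMod 2), ∀ v : Fin m → ZMod 2,
    g (ofCoords α v) = b + ∑ i, a i * v i

/-- The standing hypotheses on `m < n`, the field `K` of order `2^m`, the primitive element `α`,
the orthogonal non-affine function `g` and the taps `0 < r_1 < ⋯ < r_m < n`. -/
structure Admissible (m n : ℕ) (K : Type) [Field K] [Fintype K] [Algebra (ZMod 2) K] (α : K)
    (g : K → ZMod 2) (r : Fin m → ℕ) : Prop where
  one_le : 1 ≤ m
  lt : m < n
  card : Fintype.card K = 2 ^ m
  primitive : ∀ x : K, x ≠ 0 → ∃ k : ℕ, x = α ^ k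
  orthogonal : IsOrthogonal g
  nonaffine : ¬ IsAffine α m g
  taps_strictMono : StrictMono r
  taps_pos : ∀ i, 0 < r i
  taps_lt : ∀ i, r i < n

/-- `s` is generated by the NLFSR: `s_{k+n} = c + s_k + g(s_{k+r_1}, …, s_{k+r_m})`. -/
def Generated {m : ℕ} (n : ℕ) {K : Type} [Field K] [Algebra (ZMod 2) K] (α : K)
    (g : K → ZMod 2) (c : ZMod 2) (r : Fin m → ℕ) (s : ℕ → ZMod 2) : Prop :=
  ∀ k, s (k + n) = c + s k + g (ofCoords α fun i => s (k + r i))

/-- `s` is a span `n` sequence: it has period `2^n - 1` and each nonzero `n`-tuple occurs exactly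
once among the `n`-windows of one period. -/
def IsSpan (n : ℕ) (s : ℕ → ZMod 2) : Prop :=
  (∀ k, s (k + (2 ^ n - 1)) = s k) ∧
  ∀ v : Fin n → ZMod 2, v ≠ 0 → ∃! k, k < 2 ^ n - 1 ∧ ∀ i : Fin n, s (k + i) = v i

/-- The linear span: the length of the shortest linear feedback shift register generating `s`. -/
noncomputable def linearSpan (s : ℕ → ZMod 2) : ℕ :=
  sInf {L | ∃ a : Fin L → ZMod 2, ∀ k, s (k + L) = ∑ i, a i * s (k + i)}

/-- The statement Q1 asks to prove or disprove. -/
def Conjecture : Prop :=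
  ∀ (m n : ℕ) (K : Type) [Field K] [Fintype K] [Algebra (ZMod 2) K] (α : K)
    (g : K → ZMod 2) (c : ZMod 2) (r : Fin m → ℕ) (s : ℕ → ZMod 2),
    Admissible m n K α g r → Generated n α g c r s →
    (IsSpan n s ∨ IsSpan n fun k => s k + 1) →
    (2 : ℤ) ^ n - 2 - 3 * n ≤ linearSpan s ∧ (linearSpan s : ℤ) ≤ 2 ^ n - 2

/-- Only the lower bound, and only for sequences `s` that are themselves span `n` sequences. -/
def LowerBound : Prop :=
  ∀ (m n : ℕ) (K : Type) [Field K] [Fintype K] [Algebra (ZMod 2) K] (α : K)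
    (g : K → ZMod 2) (c : ZMod 2) (r : Fin m → ℕ) (s : ℕ → ZMod 2),
    Admissible m n K α g r → Generated n α g c r s → IsSpan n s →
    (2 : ℤ) ^ n - 2 - 3 * n ≤ linearSpan s

/-! ### The sequence -/

/-- the sequence -/
def seq (k : ℕ) : ZMod 2 := bz (S2.testBit (k % 1023))

lemma seq_small {k : ℕ} (hk : k < 2046) : seq k = bz (S2.testBit k) := by
  unfold seq
  rcases lt_or_ge k 1023 with h | h
  · rw [Nat.mod_eq_of_lt h]
  · obtain ⟨j, rfl⟩ := Nat.exists_eq_add_of_le h
    rw [Nat.add_mod_left, Nat.mod_eq_of_lt (by omega), add_comm, per_table j (by omega)]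

lemma seq_mod (k j : ℕ) : seq (k + j) = seq (k % 1023 + j) := by
  unfold seq
  rw [Nat.mod_add_mod]

lemma seq_period (k : ℕ) : seq (k + 1023) = seq k := by
  unfold seq
  rw [Nat.add_mod_right]

lemma W_testBit (k i : ℕ) (hi : i < 10) : (W k).testBit i = S2.testBit (k + i) := by
  unfold W
  rw [show 1024 = 2 ^ 10 from rfl, Nat.testBit_mod_two_pow, Nat.testBit_shiftRight]
  simp [hi]

lemma W_lt (k : ℕ) : W k < 1024 := Nat.mod_lt _ (by norm_num)

theorem seq_isSpan : IsSpan 10 seq := by
  refine ⟨fun k => seq_period k, fun v hv => ?_⟩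
  let f : Fin 10 → Bool := fun i => decide (v i = 1)
  have hf : ∀ i, bz (f i) = v i := by
    intro i
    have : v i = 0 ∨ v i = 1 := by
      generalize v i = x; revert x; decide
    rcases this with h | h <;> simp [f, bz, h]
  let c := Nat.ofBits f
  have hc : c < 1024 := Nat.ofBits_lt_two_pow f
  have hcb : ∀ i (hi : i < 10), c.testBit i = f ⟨i, hi⟩ := fun i hi => Nat.testBit_ofBits_lt f i hi
  have hc0 : 0 < c := by
    rcases Nat.eq_zero_or_pos c with h | h
    · exfalso
      apply hv
      funext i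
      have := hcb i i.2
      rw [h, Nat.zero_testBit] at this
      rw [← hf i]
      change bz (f i) = 0
      rw [show f i = false from this.symm]
      rfl
    · exact h
  obtain ⟨h1, h2⟩ := W_pos c hc hc0
  have key : ∀ k, k < 1023 → ((∀ i : Fin 10, seq (k + i) = v i) ↔ W k = c) := by
    intro k hk
    constructor
    · intro h
      apply Nat.eq_of_testBit_eq
      intro i
      rcases lt_or_ge i 10 with hi | hi
      · rw [W_testBit k i hi, hcb i hi]
        apply bz_inj
        have := h ⟨i, hi⟩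
        rw [seq_small (by simp; omega)] at this
        rw [hf, ← this]
      · rw [Nat.testBit_lt_two_pow (lt_of_lt_of_le (W_lt k) ?_),
          Nat.testBit_lt_two_pow (lt_of_lt_of_le hc ?_)]
        all_goals exact Nat.pow_le_pow_right (n := 2) (by norm_num) hi
    · intro h i
      rw [seq_small (by have := i.2; omega), ← W_testBit k i i.2, h, hcb i i.2, hf]
  refine ⟨pos c, ⟨by norm_num; exact h1, (key _ h1).2 h2⟩, ?_⟩
  rintro k ⟨hk, hk'⟩
  have hk1 : k < 1023 := by norm_num at hk; exact hk
  rw [← (key k hk1).1 hk', pos_W k hk1]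

/-! ### Linear recurrence -/

lemma F_testBit (n k : ℕ) : bz ((F n).testBit k) =
    ∑ i ∈ Finset.range n, bz (C.testBit i) * bz (S2.testBit (k + i)) := by
  induction n with
  | zero => simp [F, bz]
  | succ n ih =>
    rw [Finset.sum_range_succ, ← ih, F, Nat.testBit_xor, bz_xor]
    congr 1
    cases h : C.testBit n
    · simp [bz]
    · rw [if_pos rfl, Nat.testBit_shiftRight, add_comm n k]
      simp [bz]

lemma aux_zero (x n k : ℕ) (h : x % 2 ^ n = 0) (hk : k < n) : x.testBit k = false := by
  have e := Nat.testBit_mod_two_pow x n k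
  rw [h, Nat.zero_testBit] at e
  simpa [hk] using e.symm

theorem seq_rec (k : ℕ) :
    seq (k + 987) = ∑ i : Fin 987, bz (C.testBit i) * seq (k + i) := by
  rw [seq_mod k 987]
  simp_rw [fun i : Fin 987 => seq_mod k i]
  have hk : k % 1023 < 1023 := Nat.mod_lt _ (by norm_num)
  generalize k % 1023 = k at hk
  have h0 : bz ((F 988).testBit k) = 0 := by
    have e := aux_zero (F 988) 1023 k F_table hk
    rw [e]; rfl
  have h00 := F_testBit (987 + 1) k
  rw [Finset.sum_range_succ, C_top] at h00
  rw [show (988 : ℕ) = 987 + 1 from rfl, h00] at h0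
  have h1 : bz (S2.testBit (k + 987)) =
      ∑ i ∈ Finset.range 987, bz (C.testBit i) * bz (S2.testBit (k + i)) := by
    have : ∀ a b : ZMod 2, a + bz true * b = 0 → b = a := by decide
    exact this _ _ h0
  rw [seq_small (by omega), h1, Finset.sum_range]
  refine Finset.sum_congr rfl fun i _ => ?_
  rw [seq_small (by have := i.2; omega)]

theorem linearSpan_seq_le : linearSpan seq ≤ 987 :=
  Nat.sInf_le ⟨fun i => bz (C.testBit i), seq_rec⟩

/-! ### The feedback function -/

section field
variable {K : Type} [Field K] [Fintype K] [Algebra (ZMod 2) K] [CharP K 2]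

/-- the root condition -/
def Root (α : K) : Prop := α ^ 9 + α ^ 8 + α ^ 7 + α ^ 3 + α ^ 2 + α + 1 = 0

omit [Fintype K] [CharP K 2] in
lemma ofCoords_eq (α : K) (f : ℕ → Bool) (b : ℕ) (hb : b < 512)
    (hf : ∀ i < 9, b.testBit i = f i) :
    ofCoords α (fun i : Fin 9 => bz (f i)) = ev α b := by
  unfold ofCoords ev
  rw [Finset.sum_range_succ, Nat.testBit_lt_two_pow (by norm_num; exact hb)]
  simp only [Bool.false_eq_true, if_false, add_zero]
  rw [Finset.sum_range]
  refine Finset.sum_congr rfl fun i _ => ?_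
  rw [hf i i.2]
  cases f i <;> simp [bz]

omit [CharP K 2] in
lemma finrank_eq (hK : Fintype.card K = 512) : Module.finrank (ZMod 2) K = 9 := by
  have h := Module.card_eq_pow_finrank (K := ZMod 2) (V := K)
  rw [hK, ZMod.card] at h
  exact (Nat.pow_right_injective (le_refl 2) (by norm_num; exact h : (2 : ℕ) ^ 9 = _)).symm

omit [CharP K 2] in
lemma trace_eq (hK : Fintype.card K = 512) (x : K) :
    algebraMap (ZMod 2) K (Algebra.trace (ZMod 2) K x) = ∑ i ∈ Finset.range 9, x ^ (2 ^ i) := by
  rw [FiniteField.algebraMap_trace_eq_sum_pow, finrank_eq hK]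
  simp

omit [Fintype K] [Algebra (ZMod 2) K] in
lemma fold_ev (α : K) (l : List ℕ) (f : ℕ → ℕ) (r : ℕ) :
    ev α (l.foldl (fun r k => r ^^^ f k) r) = ev α r + (l.map fun k => ev α (f k)).sum := by
  induction l generalizing r with
  | nil => simp
  | cons a l ih => rw [List.foldl_cons, ih, ev_xor, List.map_cons, List.sum_cons, add_assoc]

/-- the feedback function `x ↦ Tr(α^301 x^107)` -/
noncomputable def gfun (α : K) (x : K) : ZMod 2 := Algebra.trace (ZMod 2) K (α ^ 301 * x ^ 107)

lemma gfun_ev (hK : Fintype.card K = 512) {α : K} (hα : Root α) {b : ℕ} (hb : b < 512) :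
    gfun α (ev α b) = bz (GT.testBit b) := by
  rcases Nat.eq_zero_or_pos b with rfl | h0
  · rw [ev_zero]
    have : GT.testBit 0 = false := by decide +kernel
    rw [this]
    simp [gfun, bz]
  obtain ⟨i, hi, rfl⟩ := E_cover b hb h0
  rw [← pow_eq hα i hi]
  apply (algebraMap (ZMod 2) K).injective
  unfold gfun
  rw [trace_eq hK]
  have h1 : α ^ 301 * (α ^ i) ^ 107 = α ^ (301 + 107 * i) := by
    rw [← pow_mul, ← pow_add]; ring_nf
  rw [h1]
  have h2 : ∀ k, (α ^ (301 + 107 * i)) ^ (2 ^ k) = ev α (E (((301 + 107 * i) * 2 ^ k) % 511)) := by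
    intro k
    rw [← pow_mul, ← pow_eq hα _ (Nat.mod_lt _ (by norm_num))]
    conv_lhs => rw [← Nat.mod_add_div ((301 + 107 * i) * 2 ^ k) 511, pow_add, pow_mul,
      pow_511 hα, one_pow, mul_one]
  simp_rw [h2]
  have h3 := fold_ev α (List.range 9) (fun k => E (((301 + 107 * i) * 2 ^ k) % 511)) 0
  rw [tr_table i hi, ev_zero, zero_add] at h3
  have h4 : ∑ k ∈ Finset.range 9, ev α (E (((301 + 107 * i) * 2 ^ k) % 511)) =
      ((List.range 9).map fun k => ev α (E (((301 + 107 * i) * 2 ^ k) % 511))).sum := by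
    rw [Finset.sum_range_induction _ (fun n => ((List.range n).map
      fun k => ev α (E (((301 + 107 * i) * 2 ^ k) % 511))).sum) (by simp)]
    intro n _
    rw [List.range_succ, List.map_append, List.sum_append]
    simp
  rw [h4, ← h3]
  cases GT.testBit (E i) <;> simp [bz, ev_zero, ev_one]

/-- the quadratic-like sign -/
noncomputable def chi (y : K) : ℤ := (-1) ^ (Algebra.trace (ZMod 2) K y).val

omit [Fintype K] [CharP K 2] in
lemma chi_add (y z : K) : chi (y + z) = chi y * chi z := by
  unfold chi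
  rw [map_add]
  generalize Algebra.trace (ZMod 2) K y = a
  generalize Algebra.trace (ZMod 2) K z = b
  revert a b
  decide

lemma chi_one (hK : Fintype.card K = 512) : chi (1 : K) = -1 := by
  have h : Algebra.trace (ZMod 2) K 1 = 1 := by
    apply (algebraMap (ZMod 2) K).injective
    rw [trace_eq hK]
    simp only [one_pow, Finset.sum_const, Finset.card_range, map_one]
    have : ((9 : ℕ) : K) = 1 := by
      have h2 : ((2 : ℕ) : K) = 0 := CharP.cast_eq_zero K 2
      have : ((9 : ℕ) : K) = 4 * ((2 : ℕ) : K) + 1 := by push_cast; ring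
      rw [this, h2]; ring
    rw [nsmul_eq_mul, mul_one, this]
  unfold chi
  rw [h]
  decide

lemma sum_chi (hK : Fintype.card K = 512) {μ : K} (hμ : μ ≠ 0) : ∑ y : K, chi (μ * y) = 0 := by
  have h : ∑ y : K, chi (μ * y) = ∑ y : K, - chi (μ * y) := by
    rw [← Equiv.sum_comp (Equiv.addRight μ⁻¹)]
    refine Finset.sum_congr rfl fun y _ => ?_
    rw [Equiv.coe_addRight, mul_add, mul_inv_cancel₀ hμ, chi_add, chi_one hK]
    ring
  rw [Finset.sum_neg_distrib] at h
  omega

omit [CharP K 2] [Algebra (ZMod 2) K] in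
lemma pow_big (hK : Fintype.card K = 512) (x : K) : (x ^ 107) ^ 277 = x := by
  rw [← pow_mul]
  by_cases hx : x = 0
  · rw [hx]; norm_num
  · have h := FiniteField.pow_card_sub_one_eq_one x hx
    rw [hK] at h
    rw [show 107 * 277 = (512 - 1) * 58 + 1 from rfl, pow_succ, pow_mul, h, one_pow, one_mul]

omit [CharP K 2] [Algebra (ZMod 2) K] in
lemma pow_bij (hK : Fintype.card K = 512) : Function.Bijective (fun x : K => x ^ 107) := by
  apply Function.Injective.bijective_of_finite
  intro x y h
  simp only at h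
  rw [← pow_big hK x, h, pow_big hK y]

lemma gfun_orthogonal (hK : Fintype.card K = 512) {α : K} (hα : Root α) :
    IsOrthogonal (gfun α) := by
  intro l hl
  have h1 : ∀ x : K, (-1 : ℤ) ^ (gfun α (l * x) + gfun α x).val =
      chi ((α ^ 301 * (l ^ 107 + 1)) * x ^ 107) := by
    intro x
    unfold gfun chi
    rw [← map_add]
    congr 4
    ring
  simp_rw [h1]
  have h2 : α ^ 301 * (l ^ 107 + 1) ≠ 0 := by
    apply mul_ne_zero (pow_ne_zero _ (SpanField.ne_zero hα))
    intro h
    have : l ^ 107 = 1 := by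
      have := CharTwo.add_eq_zero.mp h
      exact this
    apply hl
    rw [← pow_big hK l, this, one_pow]
  rw [(pow_bij hK).sum_comp (fun y => chi ((α ^ 301 * (l ^ 107 + 1)) * y))]
  exact sum_chi hK h2

lemma gfun_nonaffine (hK : Fintype.card K = 512) {α : K} (hα : Root α) :
    ¬ IsAffine α 9 (gfun α) := by
  rintro ⟨b, a, h⟩
  have e : ∀ c < 512, gfun α (ofCoords α fun i : Fin 9 => bz (Nat.testBit c i)) =
      bz (GT.testBit c) := by
    intro c hc
    rw [ofCoords_eq α (Nat.testBit c) c hc (fun _ _ => rfl), gfun_ev hK hα hc]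
  have h0 := h fun i => bz (Nat.testBit 0 i)
  have h1 := h fun i => bz (Nat.testBit 1 i)
  have h2 := h fun i => bz (Nat.testBit 32 i)
  have h3 := h fun i => bz (Nat.testBit 33 i)
  rw [e _ (by norm_num)] at h0 h1 h2 h3
  have g0 : GT.testBit 0 = false := by decide +kernel
  have g1 : GT.testBit 1 = false := by decide +kernel
  have g2 : GT.testBit 32 = false := by decide +kernel
  have g3 : GT.testBit 33 = true := by decide +kernel
  rw [g0] at h0
  rw [g1] at h1
  rw [g2] at h2
  rw [g3] at h3
  have k : (b + ∑ i : Fin 9, a i * bz (Nat.testBit 0 i)) + (b + ∑ i : Fin 9, a i * bz (Nat.testBit 1 i))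
    + (b + ∑ i : Fin 9, a i * bz (Nat.testBit 32 i)) + (b + ∑ i : Fin 9, a i * bz (Nat.testBit 33 i)) = 0 := by
    have h4 : ∀ x : ZMod 2, x + x = 0 := by decide
    have : ∀ i : Fin 9, a i * bz (Nat.testBit 0 i) + a i * bz (Nat.testBit 1 i) +
        a i * bz (Nat.testBit 32 i) + a i * bz (Nat.testBit 33 i) = 0 := by
      intro i
      have : bz (Nat.testBit 0 i) + bz (Nat.testBit 1 i) + bz (Nat.testBit 32 i) +
        bz (Nat.testBit 33 i) = 0 := by
        revert i; decide
      rw [← mul_add, ← mul_add, ← mul_add, this, mul_zero]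
    calc _ = ((b + b) + (b + b)) + ∑ i : Fin 9, (a i * bz (Nat.testBit 0 i) +
          a i * bz (Nat.testBit 1 i) + a i * bz (Nat.testBit 32 i) +
          a i * bz (Nat.testBit 33 i)) := by
          simp only [Finset.sum_add_distrib]; ring
      _ = 0 := by rw [Finset.sum_eq_zero (fun i _ => this i), h4, h4]
  rw [← h0, ← h1, ← h2, ← h3] at k
  revert k
  decide

theorem seq_generated (hK : Fintype.card K = 512) {α : K} (hα : Root α) :
    Generated 10 α (gfun α) 0 (fun i : Fin 9 => (i : ℕ) + 1) seq := by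
  intro k
  rw [seq_mod k 10]
  have hk0 : seq k = seq (k % 1023) := seq_mod k 0
  rw [hk0]
  have : (fun i : Fin 9 => seq (k + ((i : ℕ) + 1))) =
      fun i : Fin 9 => seq (k % 1023 + ((i : ℕ) + 1)) := by
    funext i; exact seq_mod k _
  rw [this]
  have hk : k % 1023 < 1023 := Nat.mod_lt _ (by norm_num)
  generalize k % 1023 = k at hk
  have h1 : (fun i : Fin 9 => seq (k + ((i : ℕ) + 1))) =
      fun i : Fin 9 => bz (S2.testBit (k + 1 + i)) := by
    funext i
    rw [seq_small (by have := i.2; omega), show k + ((i : ℕ) + 1) = k + 1 + i by ring]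
  have hb : (S2 >>> (k + 1)) % 512 < 512 := Nat.mod_lt _ (by norm_num)
  rw [h1, ofCoords_eq α (fun i => S2.testBit (k + 1 + i)) ((S2 >>> (k + 1)) % 512) hb,
    gfun_ev hK hα hb, seq_small (by omega), seq_small (by omega), rec_table k hk, bz_xor,
    zero_add]
  intro i hi
  rw [show 512 = 2 ^ 9 from rfl, Nat.testBit_mod_two_pow, Nat.testBit_shiftRight]
  simp [hi]

omit [Algebra (ZMod 2) K] in
lemma primitive (hK : Fintype.card K = 512) {α : K} (hα : Root α) :
    ∀ x : K, x ≠ 0 → ∃ k : ℕ, x = α ^ k := by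
  classical
  have h1 : (Finset.range 511).image (fun k => α ^ k) = Finset.univ.erase (0 : K) := by
    apply Finset.eq_of_subset_of_card_le
    · intro y hy
      obtain ⟨k, _, rfl⟩ := Finset.mem_image.mp hy
      exact Finset.mem_erase.mpr ⟨pow_ne_zero _ (SpanField.ne_zero hα), Finset.mem_univ _⟩
    · rw [Finset.card_erase_of_mem (Finset.mem_univ _), Finset.card_univ, hK,
        Finset.card_image_of_injOn, Finset.card_range]
      intro i hi j hj h
      apply pow_injOn_Iio_orderOf _ _ h
      · rw [SpanField.order hα]; simpa using hi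
      · rw [SpanField.order hα]; simpa using hj
  intro x hx
  have : x ∈ (Finset.range 511).image (fun k => α ^ k) := by
    rw [h1]; exact Finset.mem_erase.mpr ⟨hx, Finset.mem_univ _⟩
  obtain ⟨k, _, rfl⟩ := Finset.mem_image.mp this
  exact ⟨k, rfl⟩

end field

noncomputable instance : Fintype (GaloisField 2 9) := Fintype.ofFinite _

/-- **Main theorem.**  With `m = 9`, `n = 10`, the field `K` of order `512` and a root `α` of the
primitive polynomial `x^9+x^8+x^7+x^3+x^2+x+1`, the function `g(x) = Tr(α^301 x^107)` is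
orthogonal and not affine, and the NLFSR `s_{k+10} = s_k + g(s_{k+1}, …, s_{k+9})` generates a
span `10` sequence `s` of linear span at most `987 < 992 = 2^10 - 2 - 3·10`.  So the lower bound of
the conjecture fails (already for sequences that are themselves span `n`), and the conjecture
of Q1 is false. -/
theorem result :
    (∃ (K : Type) (_ : Field K) (_ : Fintype K) (_ : Algebra (ZMod 2) K) (α : K)
      (s : ℕ → ZMod 2),
      α ^ 9 + α ^ 8 + α ^ 7 + α ^ 3 + α ^ 2 + α + 1 = 0 ∧
      Admissible 9 10 K α (fun x => Algebra.trace (ZMod 2) K (α ^ 301 * x ^ 107))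
        (fun i : Fin 9 => (i : ℕ) + 1) ∧
      Generated 10 α (fun x => Algebra.trace (ZMod 2) K (α ^ 301 * x ^ 107)) 0
        (fun i : Fin 9 => (i : ℕ) + 1) s ∧
      IsSpan 10 s ∧ linearSpan s ≤ 987 ∧ (linearSpan s : ℤ) < 2 ^ 10 - 2 - 3 * 10) ∧
    ¬ LowerBound ∧ ¬ Conjecture := by
  have hK : Fintype.card (GaloisField 2 9) = 512 := by
    rw [← Nat.card_eq_fintype_card, GaloisField.card 2 9 (by norm_num)]; norm_num
  obtain ⟨α, hα⟩ := SpanField.exists_root (GaloisField 2 9) hK
  have hadm : Admissible 9 10 (GaloisField 2 9) α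
      (fun x => Algebra.trace (ZMod 2) (GaloisField 2 9) (α ^ 301 * x ^ 107))
      (fun i : Fin 9 => (i : ℕ) + 1) :=
    { one_le := by norm_num
      lt := by norm_num
      card := by rw [hK]; norm_num
      primitive := primitive hK hα
      orthogonal := gfun_orthogonal hK hα
      nonaffine := gfun_nonaffine hK hα
      taps_strictMono := fun i j h => by simpa using h
      taps_pos := fun i => by simp
      taps_lt := fun i => by have := i.2; omega }
  have hgen := seq_generated hK hα
  have hle : (linearSpan seq : ℤ) ≤ 987 := by exact_mod_cast linearSpan_seq_le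
  have hlb : ¬ LowerBound := by
    intro h
    have := h 9 10 (GaloisField 2 9) α _ 0 _ seq hadm hgen seq_isSpan
    norm_num at this
    omega
  refine ⟨⟨GaloisField 2 9, inferInstance, inferInstance, inferInstance, α, seq, hα, hadm, hgen,
    seq_isSpan, linearSpan_seq_le, by norm_num; omega⟩, hlb, fun h => hlb ?_⟩
  intro m n K _ _ _ α g c r s h1 h2 h3
  exact (h m n K α g c r s h1 h2 (Or.inl h3)).1

end Pool.Agent.Results.MP_593d43_lc.SmallLinearSpan
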